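import Mathlib

open Finset

namespace Pool.Agent.Zk81.AK

/-- All fibres of a surjective homomorphism of finite groups have the same size. -/
theorem fiber_card {A C : Type*} [AddCommGroup A] [AddCommGroup C] [Fintype A] [Fintype C]
    [DecidableEq C]
    (f : A →+ C) (hf : Function.Surjective f) (c : C) :
    (univ.filter (fun a => f a = c)).card * Fintype.card C = Fintype.card A := by
  have h : ∀ c', (univ.filter (fun a => f a = c')).card = (univ.filter (fun a => f a = c)).card :=
    fun c' => AddMonoidHom.card_fiber_eq_of_mem_range f (hf c') (hf c)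
  have h2 := Finset.card_eq_sum_card_fiberwise (s := (univ : Finset A)) (t := (univ : Finset C))
    (f := f) (fun _ _ => mem_coe.2 (mem_univ _))
  rw [Finset.sum_congr rfl (fun c' _ => h c')] at h2
  rw [sum_const, smul_eq_mul, card_univ, card_univ] at h2
  rw [h2, mul_comm]

theorem eval_surj {q : ℕ} [Fact q.Prime] {L : ℕ} {W : Type*} [AddCommGroup W] [Module (ZMod q) W]
    {u : Fin L → ZMod q} (hu : u ≠ 0) (w : W) :
    ∃ T : (Fin L → ZMod q) →ₗ[ZMod q] W, T u = w := by
  obtain ⟨j, hj⟩ := Function.ne_iff.1 hu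
  refine ⟨(LinearMap.proj j : (Fin L → ZMod q) →ₗ[ZMod q] ZMod q).smulRight ((u j)⁻¹ • w), ?_⟩
  rw [LinearMap.smulRight_apply, LinearMap.proj_apply, smul_smul, mul_inv_cancel₀ hj, one_smul]

open Classical in
/-- The abstract averaging argument. -/
theorem average {M ι V : Type*} [Fintype M] [Nonempty M] [Fintype ι] [Fintype V]
    (F : M → ι → V) (bad : M → ι → Prop) (n2 K : ℝ) (hn : n2 = Fintype.card V) (hn0 : 0 < n2)
    (hN : 1 ≤ Fintype.card ι)
    (h1 : ∀ i j, i ≠ j → ((univ.filter (fun t => F t i = F t j)).card : ℝ) * n2 ≤ Fintype.card M)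
    (h2 : ∀ i, ((univ.filter (fun t => bad t i)).card : ℝ) ≤ Fintype.card M * K) :
    ∃ t : M, n2 * (1 - 4 * n2 / Fintype.card ι - 2 * K) ≤
      ({v | ∃ i, F t i = v ∧ ¬ bad t i} : Set V).ncard := by
  set N : ℝ := (Fintype.card ι : ℝ) with hNdef
  have hN0 : (0 : ℝ) < N := by
    have : (1 : ℝ) ≤ N := by rw [hNdef]; exact_mod_cast hN
    linarith
  set μ : ℝ := N / n2 with hμ
  have hμ0 : 0 < μ := div_pos hN0 hn0
  let X : M → V → ℝ := fun t v => ((univ.filter (fun i => F t i = v)).card : ℝ)
  have hX1 : ∀ t, ∑ v, X t v = N := by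
    intro t
    have := Finset.card_eq_sum_card_fiberwise (s := (univ : Finset ι)) (t := (univ : Finset V))
      (f := F t) (fun _ _ => mem_coe.2 (mem_univ _))
    rw [card_univ] at this
    simp only [X, hNdef]
    rw [this]
    push_cast
    rfl
  have hX2 : ∀ t, ∑ v, X t v ^ 2 = ∑ i, ∑ j, (if F t i = F t j then (1 : ℝ) else 0) := by
    intro t
    have e1 : ∀ v, X t v = ∑ i, (if F t i = v then (1 : ℝ) else 0) := by
      intro v
      simp only [X]
      rw [Finset.card_filter]
      push_cast
      rfl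
    have e2 : ∀ v, X t v ^ 2 = ∑ i, ∑ j, (if F t i = v then (1 : ℝ) else 0) *
        (if F t j = v then (1 : ℝ) else 0) := by
      intro v
      rw [sq, e1, Finset.sum_mul_sum]
    rw [Finset.sum_congr rfl (fun v _ => e2 v), Finset.sum_comm]
    refine Finset.sum_congr rfl (fun i _ => ?_)
    rw [Finset.sum_comm]
    refine Finset.sum_congr rfl (fun j _ => ?_)
    rw [Finset.sum_eq_single (F t i)]
    · rw [if_pos rfl, one_mul]
      by_cases h : F t i = F t j
      · rw [if_pos h, if_pos h.symm]
      · rw [if_neg h, if_neg (fun h' => h h'.symm)]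
    · intro v _ hv
      rw [if_neg (Ne.symm hv), zero_mul]
    · intro h; exact absurd (mem_univ _) h
  have hS2 : ∑ t, ∑ v, X t v ^ 2 ≤ Fintype.card M * (N + N ^ 2 / n2) := by
    rw [Finset.sum_congr rfl (fun t _ => hX2 t), Finset.sum_comm]
    have e3 : ∀ i : ι, ∑ t, ∑ j, (if F t i = F t j then (1 : ℝ) else 0) ≤
        Fintype.card M + N * (Fintype.card M / n2) := by
      intro i
      rw [Finset.sum_comm]
      have e4 : ∀ j : ι, ∑ t, (if F t i = F t j then (1 : ℝ) else 0) ≤
          (if j = i then (Fintype.card M : ℝ) else 0) + Fintype.card M / n2 := by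
        intro j
        have e5 : ∑ t, (if F t i = F t j then (1 : ℝ) else 0) =
            ((univ.filter (fun t => F t i = F t j)).card : ℝ) := by
          rw [Finset.card_filter]; push_cast; rfl
        rw [e5]
        by_cases h : j = i
        · rw [if_pos h]
          have h6 : ((univ.filter (fun t => F t i = F t j)).card : ℝ) ≤ Fintype.card M := by
            exact_mod_cast (Finset.card_le_univ _)
          have h7 : (0 : ℝ) ≤ Fintype.card M / n2 := by positivity
          linarith
        · rw [if_neg h, zero_add, le_div_iff₀ hn0]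
          exact h1 i j (Ne.symm h)
      refine (Finset.sum_le_sum (fun j _ => e4 j)).trans ?_
      rw [Finset.sum_add_distrib, Finset.sum_ite_eq' univ i, if_pos (mem_univ _), sum_const,
        card_univ, nsmul_eq_mul]
    refine (Finset.sum_le_sum (fun i _ => e3 i)).trans ?_
    rw [sum_const, card_univ, nsmul_eq_mul]
    rw [← hNdef]
    apply le_of_eq
    field_simp
  have hS : ∑ t, ∑ v, (X t v - μ) ^ 2 ≤ Fintype.card M * N := by
    have e6 : ∀ t, ∑ v, (X t v - μ) ^ 2 = ∑ v, X t v ^ 2 - N ^ 2 / n2 := by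
      intro t
      have : ∀ v, (X t v - μ) ^ 2 = X t v ^ 2 - 2 * μ * X t v + μ ^ 2 := fun v => by ring
      rw [Finset.sum_congr rfl (fun v _ => this v), Finset.sum_add_distrib,
        Finset.sum_sub_distrib, ← Finset.mul_sum, hX1, sum_const, card_univ, nsmul_eq_mul, ← hn, hμ]
      field_simp
      ring
    rw [Finset.sum_congr rfl (fun t _ => e6 t), Finset.sum_sub_distrib, sum_const, card_univ,
      nsmul_eq_mul]
    linarith [hS2, mul_add (Fintype.card M : ℝ) N (N ^ 2 / n2)]
  let A : M → Finset V := fun t => univ.filter (fun v => X t v ≤ μ / 2)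
  let B : M → Finset V := fun t => univ.filter (fun v => μ / 2 < X t v ∧ ∀ i, F t i = v → bad t i)
  have hA : ∀ t, ((A t).card : ℝ) ≤ 4 / μ ^ 2 * ∑ v, (X t v - μ) ^ 2 := by
    intro t
    have h7 : ((A t).card : ℝ) * (μ / 2) ^ 2 ≤ ∑ v, (X t v - μ) ^ 2 := by
      have h8 : ∑ v ∈ A t, (μ / 2) ^ 2 ≤ ∑ v ∈ A t, (X t v - μ) ^ 2 := by
        refine Finset.sum_le_sum (fun v hv => ?_)
        have h9 : X t v ≤ μ / 2 := (Finset.mem_filter.1 hv).2
        nlinarith
      rw [sum_const, nsmul_eq_mul] at h8
      refine h8.trans (Finset.sum_le_sum_of_subset_of_nonneg (Finset.subset_univ _)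
        (fun v _ _ => sq_nonneg _))
    have h10 : ((A t).card : ℝ) = 4 / μ ^ 2 * (((A t).card : ℝ) * (μ / 2) ^ 2) := by
      field_simp
      ring
    rw [h10]
    exact mul_le_mul_of_nonneg_left h7 (by positivity)
  have hBc : ∀ t, ((B t).card : ℝ) ≤ 2 / μ * ((univ.filter (fun i => bad t i)).card : ℝ) := by
    intro t
    have h7 : ((B t).card : ℝ) * (μ / 2) ≤ ((univ.filter (fun i => bad t i)).card : ℝ) := by
      have h8 : ∑ v ∈ B t, (μ / 2) ≤ ∑ v ∈ B t, X t v := by
        refine Finset.sum_le_sum (fun v hv => ?_)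
        exact (Finset.mem_filter.1 hv).2.1.le
      rw [sum_const, nsmul_eq_mul] at h8
      refine h8.trans ?_
      have h9 : ∑ v ∈ B t, X t v =
          ((univ.filter (fun i => F t i ∈ B t)).card : ℝ) := by
        have := Finset.card_eq_sum_card_fiberwise (s := univ.filter (fun i => F t i ∈ B t))
          (t := B t) (f := F t) (fun i hi => by
            have := Finset.mem_coe.1 hi
            exact Finset.mem_coe.2 (Finset.mem_filter.1 this).2)
        rw [this]
        push_cast
        refine Finset.sum_congr rfl (fun v hv => ?_)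
        simp only [X]
        congr 1
        rw [Finset.filter_filter]
        congr 1
        ext i
        simp only [Finset.mem_filter, Finset.mem_univ, true_and]
        constructor
        · intro h; exact ⟨h ▸ hv, h⟩
        · intro h; exact h.2
      rw [h9]
      exact_mod_cast Finset.card_le_card (by
        intro i hi
        rw [Finset.mem_filter] at hi ⊢
        exact ⟨mem_univ _, (Finset.mem_filter.1 hi.2).2.2 i rfl⟩)
    have h10 : ((B t).card : ℝ) = 2 / μ * (((B t).card : ℝ) * (μ / 2)) := by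
      field_simp
    rw [h10]
    exact mul_le_mul_of_nonneg_left h7 (by positivity)
  have hbad : ∑ t, ((univ.filter (fun i => bad t i)).card : ℝ) ≤ N * (Fintype.card M * K) := by
    have e7 : ∀ t, ((univ.filter (fun i => bad t i)).card : ℝ) =
        ∑ i, (if bad t i then (1 : ℝ) else 0) := by
      intro t
      rw [Finset.card_filter]; push_cast; rfl
    rw [Finset.sum_congr rfl (fun t _ => e7 t), Finset.sum_comm]
    have e8 : ∀ i, ∑ t, (if bad t i then (1 : ℝ) else 0) ≤ Fintype.card M * K := by
      intro i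
      have e9 : ∑ t, (if bad t i then (1 : ℝ) else 0) =
          ((univ.filter (fun t => bad t i)).card : ℝ) := by
        rw [Finset.card_filter]; push_cast; rfl
      rw [e9]; exact h2 i
    refine (Finset.sum_le_sum (fun i _ => e8 i)).trans ?_
    rw [sum_const, card_univ, nsmul_eq_mul]
  have htot : ∑ t, (((A t).card : ℝ) + ((B t).card : ℝ)) ≤
      ∑ _t : M, (n2 * (4 * n2 / N + 2 * K)) := by
    rw [Finset.sum_add_distrib]
    have i1 : ∑ t, ((A t).card : ℝ) ≤ 4 / μ ^ 2 * (Fintype.card M * N) := by
      refine (Finset.sum_le_sum (fun t _ => hA t)).trans ?_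
      rw [← Finset.mul_sum]
      exact mul_le_mul_of_nonneg_left hS (by positivity)
    have i2 : ∑ t, ((B t).card : ℝ) ≤ 2 / μ * (N * (Fintype.card M * K)) := by
      refine (Finset.sum_le_sum (fun t _ => hBc t)).trans ?_
      rw [← Finset.mul_sum]
      exact mul_le_mul_of_nonneg_left hbad (by positivity)
    refine (add_le_add i1 i2).trans (le_of_eq ?_)
    rw [sum_const, card_univ, nsmul_eq_mul, hμ]
    field_simp
  obtain ⟨t, -, ht⟩ := Finset.exists_le_of_sum_le (Finset.univ_nonempty) htot
  refine ⟨t, ?_⟩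
  have hcov : (univ : Finset V) ⊆ A t ∪ B t ∪
      (univ.filter (fun v => ∃ i, F t i = v ∧ ¬ bad t i)) := by
    intro v _
    by_cases h : X t v ≤ μ / 2
    · exact Finset.mem_union_left _ (Finset.mem_union_left _ (Finset.mem_filter.2 ⟨mem_univ _, h⟩))
    · by_cases h' : ∀ i, F t i = v → bad t i
      · exact Finset.mem_union_left _ (Finset.mem_union_right _
          (Finset.mem_filter.2 ⟨mem_univ _, not_le.1 h, h'⟩))
      · push Not at h'
        exact Finset.mem_union_right _ (Finset.mem_filter.2 ⟨mem_univ _, h'⟩)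
  have hcard : (Fintype.card V : ℝ) ≤ (A t).card + (B t).card +
      (univ.filter (fun v => ∃ i, F t i = v ∧ ¬ bad t i)).card := by
    have := (Finset.card_le_card hcov).trans (Finset.card_union_le _ _)
    have h3 := Finset.card_union_le (A t) (B t)
    rw [card_univ] at this
    exact_mod_cast this.trans (by omega)
  have hset : ({v | ∃ i, F t i = v ∧ ¬ bad t i} : Set V).ncard =
      (univ.filter (fun v => ∃ i, F t i = v ∧ ¬ bad t i)).card := by
    rw [← Set.ncard_coe_finset]
    congr 1
    ext v
    simp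
  rw [hset]
  rw [← hn] at hcard
  have : n2 * (1 - 4 * n2 / N - 2 * K) = n2 - n2 * (4 * n2 / N + 2 * K) := by ring
  rw [this]
  linarith

theorem random_map (q : ℕ) [Fact q.Prime] (L d m H : ℕ) {ι R : Type} [Fintype ι] [Fintype R]
    (δ : ι → Fin L → ZMod q) (hδ : Function.Injective δ) (z : R → ι → Fin L → ZMod q)
    (B : R → Finset (Fin L → ZMod q)) (hz : ∀ r i, z r i ∈ B r) (hB : ∀ r, (B r).card ≤ H)
    (hN : 1 ≤ Fintype.card ι) :
    ∃ T : (Fin L → ZMod q) →ₗ[ZMod q] (Fin d → ZMod q) × (Fin m → ZMod q),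
      (q : ℝ) ^ (d + m) * (1 - 12 * (q : ℝ) ^ (d + m) / Fintype.card ι -
        6 * Fintype.card R * H / (q : ℝ) ^ d) ≤
      ({v | ∃ i, T (δ i) = v ∧ ∀ r, ∀ w ∈ B r, (T w).1 = (T (z r i)).1 → w = z r i} :
        Set ((Fin d → ZMod q) × (Fin m → ZMod q))).ncard := by
  classical
  let M := (Fin L → ZMod q) →ₗ[ZMod q] (Fin d → ZMod q) × (Fin m → ZMod q)
  have : Finite M := DFunLike.finite M
  let _ : Fintype M := Fintype.ofFinite M
  have hq : 0 < q := (Fact.out : q.Prime).pos
  have hqR : (0 : ℝ) < q := by exact_mod_cast hq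
  have cd : Fintype.card (Fin d → ZMod q) = q ^ d := by simp [ZMod.card]
  have cW : Fintype.card ((Fin d → ZMod q) × (Fin m → ZMod q)) = q ^ (d + m) := by
    simp [ZMod.card, pow_add]
  let bad : M → ι → Prop := fun T i => ∃ r, ∃ w ∈ B r, w ≠ z r i ∧ (T w).1 = (T (z r i)).1
  have key1 : ∀ i j, i ≠ j → ((univ.filter (fun T : M => T (δ i) = T (δ j))).card : ℝ) *
      (q : ℝ) ^ (d + m) ≤ Fintype.card M := by
    intro i j hij
    have hu : δ i - δ j ≠ 0 := sub_ne_zero.2 (fun h => hij (hδ h))
    let f : M →+ (Fin d → ZMod q) × (Fin m → ZMod q) :=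
      { toFun := fun T => T (δ i - δ j)
        map_zero' := rfl
        map_add' := fun _ _ => rfl }
    have hf : Function.Surjective f := fun w => eval_surj hu w
    have h := fiber_card f hf 0
    rw [cW] at h
    have hs : (univ.filter (fun T : M => T (δ i) = T (δ j))) =
        (univ.filter (fun T : M => f T = 0)) := by
      ext T
      simp only [Finset.mem_filter, Finset.mem_univ, true_and]
      change _ ↔ T (δ i - δ j) = 0
      rw [map_sub, sub_eq_zero]
    rw [hs]
    apply le_of_eq
    rw [← h]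
    push_cast
    congr!
  have key2 : ∀ i, ((univ.filter (fun T : M => bad T i)).card : ℝ) ≤
      Fintype.card M * (Fintype.card R * H / (q : ℝ) ^ d) := by
    intro i
    have hsub : (univ.filter (fun T : M => bad T i)) ⊆
        (univ : Finset R).biUnion (fun r => ((B r).erase (z r i)).biUnion (fun w =>
          univ.filter (fun T : M => (T (w - z r i)).1 = 0))) := by
      intro T hT
      obtain ⟨r, w, hw, hne, he⟩ := (Finset.mem_filter.1 hT).2
      refine Finset.mem_biUnion.2 ⟨r, mem_univ _, Finset.mem_biUnion.2 ⟨w,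
        Finset.mem_erase.2 ⟨hne, hw⟩, Finset.mem_filter.2 ⟨mem_univ _, ?_⟩⟩⟩
      rw [map_sub, Prod.fst_sub, he, sub_self]
    have hone : ∀ r, ∀ w ∈ (B r).erase (z r i),
        ((univ.filter (fun T : M => (T (w - z r i)).1 = 0)).card : ℝ) ≤
          Fintype.card M / (q : ℝ) ^ d := by
      intro r w hw
      have hu : w - z r i ≠ 0 := sub_ne_zero.2 (Finset.mem_erase.1 hw).1
      let f : M →+ (Fin d → ZMod q) :=
        { toFun := fun T => (T (w - z r i)).1
          map_zero' := rfl
          map_add' := fun _ _ => rfl }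
      have hf : Function.Surjective f := fun v => by
        obtain ⟨T, hT⟩ := eval_surj hu ((v, 0) : (Fin d → ZMod q) × (Fin m → ZMod q))
        exact ⟨T, by change (T (w - z r i)).1 = v; rw [hT]⟩
      have h := fiber_card f hf 0
      rw [cd] at h
      rw [le_div_iff₀ (by positivity)]
      apply le_of_eq
      rw [← h]
      push_cast
      congr!
    have hc : ((univ.filter (fun T : M => bad T i)).card : ℝ) ≤
        ∑ r : R, ∑ w ∈ (B r).erase (z r i),
          ((univ.filter (fun T : M => (T (w - z r i)).1 = 0)).card : ℝ) := by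
      have := (Finset.card_le_card hsub).trans (Finset.card_biUnion_le.trans
        (Finset.sum_le_sum (fun r _ => Finset.card_biUnion_le)))
      exact_mod_cast this
    refine hc.trans ?_
    have hr : ∀ r : R, ∑ w ∈ (B r).erase (z r i),
          ((univ.filter (fun T : M => (T (w - z r i)).1 = 0)).card : ℝ) ≤
          H * (Fintype.card M / (q : ℝ) ^ d) := by
      intro r
      refine (Finset.sum_le_sum (hone r)).trans ?_
      rw [sum_const, nsmul_eq_mul]
      refine mul_le_mul_of_nonneg_right ?_ (by positivity)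
      exact_mod_cast (Finset.card_le_card (Finset.erase_subset _ _)).trans (hB r)
    refine (Finset.sum_le_sum (fun r _ => hr r)).trans (le_of_eq ?_)
    rw [sum_const, card_univ, nsmul_eq_mul]
    ring
  obtain ⟨T, hT⟩ := average (M := M) (fun T i => T (δ i)) bad ((q : ℝ) ^ (d + m))
    (Fintype.card R * H / (q : ℝ) ^ d) (by rw [cW]; push_cast; rfl) (by positivity) hN
    (fun i j hij => by convert key1 i j hij) (fun i => by convert key2 i)
  refine ⟨T, ?_⟩
  have hset : ({v | ∃ i, T (δ i) = v ∧ ¬ bad T i} :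
      Set ((Fin d → ZMod q) × (Fin m → ZMod q))) =
      {v | ∃ i, T (δ i) = v ∧ ∀ r, ∀ w ∈ B r, (T w).1 = (T (z r i)).1 → w = z r i} := by
    ext v
    simp only [Set.mem_setOf_eq, bad]
    refine exists_congr (fun i => and_congr_right (fun _ => ?_))
    push Not
    refine forall_congr' (fun r => forall_congr' (fun w => forall_congr' (fun _ => ?_)))
    tauto
  rw [← hset]
  refine le_trans (mul_le_mul_of_nonneg_left ?_ (by positivity)) hT
  have a1 : (0 : ℝ) ≤ (q : ℝ) ^ (d + m) / Fintype.card ι := by positivity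
  have a2 : (0 : ℝ) ≤ Fintype.card R * H / (q : ℝ) ^ d := by positivity
  have a3 : 12 * (q : ℝ) ^ (d + m) / Fintype.card ι = 12 * ((q : ℝ) ^ (d + m) / Fintype.card ι) := by
    ring
  have a4 : 4 * (q : ℝ) ^ (d + m) / Fintype.card ι = 4 * ((q : ℝ) ^ (d + m) / Fintype.card ι) := by
    ring
  have a5 : 6 * Fintype.card R * H / (q : ℝ) ^ d = 6 * (Fintype.card R * H / (q : ℝ) ^ d) := by
    ring
  rw [a3, a4, a5]
  linarith

end Pool.Agent.Zk81.AK
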