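import Pool.Agent.Zk81.AKP1

set_option autoImplicit false

open Finset

namespace Pool.Agent.Zk81.AK

open Classical in
/-- The abstract second moment argument at one value. -/
theorem average_at {M ι : Type*} [Fintype M] [Fintype ι] (hit bad : M → ι → Prop) (S : Finset ι)
    (Q K : ℝ) (hQ : 0 < Q) (hS : 1 ≤ S.card)
    (h1 : ∀ i ∈ S, ((univ.filter (fun t => hit t i)).card : ℝ) = Fintype.card M / Q)
    (h2 : ∀ i ∈ S, ∀ j ∈ S, i ≠ j →
      ((univ.filter (fun t => hit t i ∧ hit t j)).card : ℝ) ≤ Fintype.card M / Q ^ 2)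
    (h3 : ∀ i ∈ S, ((univ.filter (fun t => hit t i ∧ bad t i)).card : ℝ) ≤
      Fintype.card M * K / Q) :
    ((univ.filter (fun t => ¬ ∃ i, hit t i ∧ ¬ bad t i)).card : ℝ) ≤
      Fintype.card M * (4 * Q / S.card + 2 * K) := by
  set N : ℝ := (S.card : ℝ) with hN
  have hN0 : 0 < N := by
    have : (1 : ℝ) ≤ N := by rw [hN]; exact_mod_cast hS
    linarith
  set C : ℝ := (Fintype.card M : ℝ) with hC
  have hC0 : 0 ≤ C := by positivity
  set μ : ℝ := N / Q with hμ
  have hμ0 : 0 < μ := div_pos hN0 hQ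
  let X : M → ℝ := fun t => ∑ i ∈ S, (if hit t i then (1 : ℝ) else 0)
  let Y : M → ℝ := fun t => ∑ i ∈ S, (if hit t i ∧ bad t i then (1 : ℝ) else 0)
  have cf : ∀ (p : M → Prop) [DecidablePred p],
      ∑ t, (if p t then (1 : ℝ) else 0) = ((univ.filter p).card : ℝ) := by
    intro p _
    rw [Finset.card_filter]; push_cast; rfl
  have sX : ∑ t, X t = N * (C / Q) := by
    simp only [X]
    rw [Finset.sum_comm, Finset.sum_congr rfl (fun i hi => (cf (fun t => hit t i)).trans (h1 i hi)),
      sum_const, nsmul_eq_mul]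
  have sX2 : ∑ t, X t ^ 2 ≤ N * (C / Q + N * (C / Q ^ 2)) := by
    have e : ∀ t, X t ^ 2 = ∑ i ∈ S, ∑ j ∈ S, (if hit t i ∧ hit t j then (1 : ℝ) else 0) := by
      intro t
      simp only [X]
      rw [sq, Finset.sum_mul_sum]
      refine Finset.sum_congr rfl (fun i _ => Finset.sum_congr rfl (fun j _ => ?_))
      by_cases ha : hit t i <;> by_cases hb : hit t j <;> simp [ha, hb]
    rw [Finset.sum_congr rfl (fun t _ => e t), Finset.sum_comm]
    have e3 : ∀ i ∈ S, ∑ t, ∑ j ∈ S, (if hit t i ∧ hit t j then (1 : ℝ) else 0) ≤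
        C / Q + N * (C / Q ^ 2) := by
      intro i hi
      rw [Finset.sum_comm]
      have e4 : ∀ j ∈ S, ∑ t, (if hit t i ∧ hit t j then (1 : ℝ) else 0) ≤
          (if j = i then C / Q else 0) + C / Q ^ 2 := by
        intro j hj
        rw [cf (fun t => hit t i ∧ hit t j)]
        by_cases h : j = i
        · rw [if_pos h, h]
          have h6 : ((univ.filter (fun t => hit t i ∧ hit t i)).card : ℝ) = C / Q := by
            rw [← h1 i hi]
            simp only [and_self]
          rw [h6]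
          have h7 : 0 ≤ C / Q ^ 2 := by positivity
          linarith
        · rw [if_neg h, zero_add]
          exact h2 i hi j hj (Ne.symm h)
      refine (Finset.sum_le_sum e4).trans ?_
      rw [Finset.sum_add_distrib, Finset.sum_ite_eq' S i, if_pos hi, sum_const, nsmul_eq_mul]
    refine (Finset.sum_le_sum e3).trans ?_
    rw [sum_const, nsmul_eq_mul]
  have sD : ∑ t, (X t - μ) ^ 2 ≤ C * μ := by
    have e : ∀ t, (X t - μ) ^ 2 = X t ^ 2 - 2 * μ * X t + μ ^ 2 := fun t => by ring
    rw [Finset.sum_congr rfl (fun t _ => e t), Finset.sum_add_distrib, Finset.sum_sub_distrib,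
      ← Finset.mul_sum, sX, sum_const, card_univ, nsmul_eq_mul]
    have e2 : N * (C / Q + N * (C / Q ^ 2)) - 2 * μ * (N * (C / Q)) + C * μ ^ 2 = C * μ := by
      rw [hμ]; field_simp; ring
    linarith
  have sY : ∑ t, Y t ≤ N * (C * K / Q) := by
    simp only [Y]
    rw [Finset.sum_comm]
    refine (Finset.sum_le_sum (fun i hi =>
      (cf (fun t => hit t i ∧ bad t i)).le.trans (h3 i hi))).trans ?_
    rw [sum_const, nsmul_eq_mul]
  have point : ∀ t, (if ¬ ∃ i, hit t i ∧ ¬ bad t i then (1 : ℝ) else 0) ≤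
      4 / μ ^ 2 * (X t - μ) ^ 2 + 2 / μ * Y t := by
    intro t
    have hY0 : 0 ≤ Y t := Finset.sum_nonneg (fun i _ => by split_ifs <;> norm_num)
    have p1 : 0 ≤ 4 / μ ^ 2 * (X t - μ) ^ 2 := by positivity
    have p2 : 0 ≤ 2 / μ * Y t := by positivity
    by_cases hb : ¬ ∃ i, hit t i ∧ ¬ bad t i
    · rw [if_pos hb]
      by_cases hx : X t ≤ μ / 2
      · have h5 : (μ / 2) ^ 2 ≤ (X t - μ) ^ 2 := by nlinarith
        have h6 : 4 / μ ^ 2 * (μ / 2) ^ 2 = 1 := by field_simp; norm_num
        have h7 : 4 / μ ^ 2 * (μ / 2) ^ 2 ≤ 4 / μ ^ 2 * (X t - μ) ^ 2 :=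
          mul_le_mul_of_nonneg_left h5 (by positivity)
        linarith
      · have hXY : X t = Y t := by
          simp only [X, Y]
          refine Finset.sum_congr rfl (fun i _ => ?_)
          by_cases hh : hit t i
          · have hbad : bad t i := by
              by_contra hc
              exact hb ⟨i, hh, hc⟩
            simp [hh, hbad]
          · simp [hh]
        have h6 : 2 / μ * (μ / 2) = 1 := by field_simp
        have h7 : 2 / μ * (μ / 2) ≤ 2 / μ * Y t :=
          mul_le_mul_of_nonneg_left (by rw [← hXY]; exact (not_le.1 hx).le) (by positivity)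
        linarith
    · rw [if_neg hb]
      linarith
  rw [← cf (fun t => ¬ ∃ i, hit t i ∧ ¬ bad t i)]
  refine (Finset.sum_le_sum (fun t _ => point t)).trans ?_
  rw [Finset.sum_add_distrib, ← Finset.mul_sum, ← Finset.mul_sum]
  have b1 : 4 / μ ^ 2 * ∑ t, (X t - μ) ^ 2 ≤ 4 / μ ^ 2 * (C * μ) :=
    mul_le_mul_of_nonneg_left sD (by positivity)
  have b2 : 2 / μ * ∑ t, Y t ≤ 2 / μ * (N * (C * K / Q)) :=
    mul_le_mul_of_nonneg_left sY (by positivity)
  refine (add_le_add b1 b2).trans (le_of_eq ?_)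
  rw [hμ]
  field_simp

/-- A vector is a multiple of `u₁`, or it can be mapped independently of `u₁`. -/
theorem parallel_or {q : ℕ} [Fact q.Prime] {L : ℕ} {W : Type*} [AddCommGroup W]
    [Module (ZMod q) W] {u₁ : Fin L → ZMod q} (h : u₁ ≠ 0) (u₂ : Fin L → ZMod q) :
    (∃ l : ZMod q, u₂ = l • u₁) ∨
      ∀ w₁ w₂ : W, ∃ T : (Fin L → ZMod q) →ₗ[ZMod q] W, T u₁ = w₁ ∧ T u₂ = w₂ := by
  obtain ⟨j, hj⟩ := Function.ne_iff.1 h
  by_cases hm : ∀ k, u₂ k * u₁ j = u₂ j * u₁ k
  · left
    refine ⟨u₂ j * (u₁ j)⁻¹, ?_⟩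
    funext k
    have hj' : u₁ j ≠ 0 := hj
    have := hm k
    rw [Pi.smul_apply, smul_eq_mul]
    field_simp
    linear_combination this
  · right
    push Not at hm
    obtain ⟨k, hk⟩ := hm
    intro w₁ w₂
    set D : ZMod q := u₂ k * u₁ j - u₂ j * u₁ k with hD
    have hD0 : D ≠ 0 := sub_ne_zero.2 hk
    let pj : (Fin L → ZMod q) →ₗ[ZMod q] ZMod q := LinearMap.proj j
    let pk : (Fin L → ZMod q) →ₗ[ZMod q] ZMod q := LinearMap.proj k
    let f₁ : (Fin L → ZMod q) →ₗ[ZMod q] ZMod q := D⁻¹ • (u₂ k • pj - u₂ j • pk)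
    let f₂ : (Fin L → ZMod q) →ₗ[ZMod q] ZMod q := D⁻¹ • (u₁ j • pk - u₁ k • pj)
    have a1 : f₁ u₁ = 1 := by
      change D⁻¹ * (u₂ k * u₁ j - u₂ j * u₁ k) = 1
      exact inv_mul_cancel₀ hD0
    have a2 : f₁ u₂ = 0 := by
      change D⁻¹ * (u₂ k * u₂ j - u₂ j * u₂ k) = 0
      ring
    have a3 : f₂ u₁ = 0 := by
      change D⁻¹ * (u₁ j * u₁ k - u₁ k * u₁ j) = 0
      ring
    have a4 : f₂ u₂ = 1 := by
      change D⁻¹ * (u₁ j * u₂ k - u₁ k * u₂ j) = 1
      have : u₁ j * u₂ k - u₁ k * u₂ j = D := by rw [hD]; ring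
      rw [this]
      exact inv_mul_cancel₀ hD0
    refine ⟨f₁.smulRight w₁ + f₂.smulRight w₂, ?_, ?_⟩
    · rw [LinearMap.add_apply, LinearMap.smulRight_apply, LinearMap.smulRight_apply, a1, a3,
        one_smul, zero_smul, add_zero]
    · rw [LinearMap.add_apply, LinearMap.smulRight_apply, LinearMap.smulRight_apply, a2, a4,
        one_smul, zero_smul, zero_add]

/-- Each difference `v` with `v.1 ≠ 0` is good for most linear maps. -/
theorem random_map_at (q : ℕ) [Fact q.Prime] (L d m H : ℕ) {ι R : Type} [Fintype ι] [Fintype R]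
    (δ : ι → Fin L → ZMod q) (hδ : Function.Injective δ) (z : R → ι → Fin L → ZMod q)
    (B : R → Finset (Fin L → ZMod q)) (hz : ∀ r i, z r i ∈ B r) (hB : ∀ r, (B r).card ≤ H)
    (hN : 1 ≤ Fintype.card ι) (v : (Fin d → ZMod q) × (Fin m → ZMod q)) (hv : v.1 ≠ 0) :
    (Nat.card {T : (Fin L → ZMod q) →ₗ[ZMod q] (Fin d → ZMod q) × (Fin m → ZMod q) //
        ¬ ∃ i, T (δ i) = v ∧ ∀ r, ∀ w ∈ B r, (T w).1 = (T (z r i)).1 → w = z r i} : ℝ) ≤
      (12 * (q : ℝ) ^ (d + m) / Fintype.card ι + 6 * Fintype.card R * H / (q : ℝ) ^ d) *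
        (Nat.card ((Fin L → ZMod q) →ₗ[ZMod q] (Fin d → ZMod q) × (Fin m → ZMod q)) : ℝ) := by
  classical
  let M := (Fin L → ZMod q) →ₗ[ZMod q] (Fin d → ZMod q) × (Fin m → ZMod q)
  have : Finite M := DFunLike.finite M
  let _ : Fintype M := Fintype.ofFinite M
  have hq : 0 < q := (Fact.out : q.Prime).pos
  have hqR : (0 : ℝ) < q := by exact_mod_cast hq
  have cd : Fintype.card (Fin d → ZMod q) = q ^ d := by simp [ZMod.card]
  have cW : Fintype.card ((Fin d → ZMod q) × (Fin m → ZMod q)) = q ^ (d + m) := by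
    simp [ZMod.card, pow_add]
  have hNR : (1 : ℝ) ≤ Fintype.card ι := by exact_mod_cast hN
  have hM0 : (0 : ℝ) ≤ Fintype.card M := by positivity
  have hv0 : v ≠ 0 := fun h => hv (by rw [h]; rfl)
  rw [show (Nat.card ((Fin L → ZMod q) →ₗ[ZMod q] (Fin d → ZMod q) × (Fin m → ZMod q)) : ℝ) =
    (Fintype.card M : ℝ) from by exact_mod_cast Nat.card_eq_fintype_card (α := M)]
  let bad : M → ι → Prop := fun T i => ∃ r, ∃ w ∈ B r, w ≠ z r i ∧ (T w).1 = (T (z r i)).1
  let hit : M → ι → Prop := fun T i => T (δ i) = v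
  have hset : (Nat.card {T : M // ¬ ∃ i, T (δ i) = v ∧
      ∀ r, ∀ w ∈ B r, (T w).1 = (T (z r i)).1 → w = z r i} : ℝ) =
      ((univ.filter (fun T : M => ¬ ∃ i, hit T i ∧ ¬ bad T i)).card : ℝ) := by
    rw [Nat.card_eq_fintype_card, Fintype.card_subtype]
    congr 2
    ext T
    simp only [Finset.mem_filter, Finset.mem_univ, true_and, hit, bad]
    refine not_congr (exists_congr (fun i => and_congr_right (fun _ => ?_)))
    push Not
    refine forall_congr' (fun r => forall_congr' (fun w => forall_congr' (fun _ => ?_)))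
    tauto
  rw [hset]
  have htriv : ((univ.filter (fun T : M => ¬ ∃ i, hit T i ∧ ¬ bad T i)).card : ℝ) ≤
      Fintype.card M := by
    exact_mod_cast Finset.card_le_univ _
  have a1 : (0 : ℝ) ≤ (q : ℝ) ^ (d + m) / Fintype.card ι := by positivity
  have a2 : (0 : ℝ) ≤ Fintype.card R * H / (q : ℝ) ^ d := by positivity
  have a3 : 12 * (q : ℝ) ^ (d + m) / Fintype.card ι = 12 * ((q : ℝ) ^ (d + m) / Fintype.card ι) := by
    ring
  have a5 : 6 * Fintype.card R * H / (q : ℝ) ^ d = 6 * (Fintype.card R * H / (q : ℝ) ^ d) := by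
    ring
  rw [a3, a5]
  let S : Finset ι := univ.filter (fun i => δ i ≠ 0)
  have hScard : Fintype.card ι ≤ S.card + 1 := by
    have h1 : (univ : Finset ι) = S ∪ univ.filter (fun i => δ i = 0) := by
      ext i
      simp only [S, Finset.mem_univ, Finset.mem_union, Finset.mem_filter, true_and, true_iff]
      tauto
    have h2 : (univ.filter (fun i => δ i = 0)).card ≤ 1 := by
      rw [Finset.card_le_one]
      intro a ha b hb
      exact hδ ((Finset.mem_filter.1 ha).2.trans (Finset.mem_filter.1 hb).2.symm)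
    have h3 := Finset.card_union_le S (univ.filter (fun i => δ i = 0))
    rw [← h1, card_univ] at h3
    omega
  by_cases hS : S.card = 0
  · have h1 : Fintype.card ι = 1 := by omega
    have h2 : (1 : ℝ) ≤ (q : ℝ) ^ (d + m) / Fintype.card ι := by
      rw [h1, Nat.cast_one, div_one]
      exact one_le_pow₀ (by exact_mod_cast hq)
    refine htriv.trans ?_
    nlinarith
  have hS1 : 1 ≤ S.card := Nat.one_le_iff_ne_zero.2 hS
  have k1 : ∀ i ∈ S, ((univ.filter (fun T : M => hit T i)).card : ℝ) =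
      Fintype.card M / (q : ℝ) ^ (d + m) := by
    intro i hi
    have hu : δ i ≠ 0 := (Finset.mem_filter.1 hi).2
    let f : M →+ (Fin d → ZMod q) × (Fin m → ZMod q) :=
      { toFun := fun T => T (δ i)
        map_zero' := rfl
        map_add' := fun _ _ => rfl }
    have h := fiber_card f (fun w => eval_surj hu w) v
    rw [cW] at h
    rw [eq_div_iff (by positivity), ← h]
    push_cast
    congr!
  have k2 : ∀ i ∈ S, ∀ j ∈ S, i ≠ j →
      ((univ.filter (fun T : M => hit T i ∧ hit T j)).card : ℝ) ≤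
        Fintype.card M / ((q : ℝ) ^ (d + m)) ^ 2 := by
    intro i hi j _ hij
    have hu : δ i ≠ 0 := (Finset.mem_filter.1 hi).2
    rcases parallel_or (W := (Fin d → ZMod q) × (Fin m → ZMod q)) hu (δ j) with ⟨l, hl⟩ | hs
    · have he : (univ.filter (fun T : M => hit T i ∧ hit T j)) = ∅ := by
        refine Finset.filter_eq_empty_iff.2 (fun T _ hT => ?_)
        have h1 : T (δ i) = v := hT.1
        have h2 : T (δ j) = v := hT.2
        rw [hl, map_smul, h1] at h2
        have h3 : (l - 1) • v = 0 := by rw [sub_smul, one_smul, h2, sub_self]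
        rcases smul_eq_zero.1 h3 with h4 | h4
        · rw [sub_eq_zero.1 h4, one_smul] at hl
          exact hij (hδ hl.symm)
        · exact hv0 h4
      rw [he, Finset.card_empty, Nat.cast_zero]
      positivity
    · let f : M →+ ((Fin d → ZMod q) × (Fin m → ZMod q)) × ((Fin d → ZMod q) × (Fin m → ZMod q)) :=
        { toFun := fun T => (T (δ i), T (δ j))
          map_zero' := rfl
          map_add' := fun _ _ => rfl }
      have hf : Function.Surjective f := fun w => by
        obtain ⟨T, h1, h2⟩ := hs w.1 w.2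
        exact ⟨T, Prod.ext h1 h2⟩
      have h := fiber_card f hf (v, v)
      rw [Fintype.card_prod, cW] at h
      rw [le_div_iff₀ (by positivity), ← h]
      apply le_of_eq
      push_cast
      rw [sq]
      congr 2
      refine congrArg Finset.card (Finset.filter_congr (fun T _ => ?_))
      change (T (δ i) = v ∧ T (δ j) = v) ↔ (T (δ i), T (δ j)) = (v, v)
      exact ⟨fun h => Prod.ext h.1 h.2, fun h => ⟨congrArg Prod.fst h, congrArg Prod.snd h⟩⟩
  have k3 : ∀ i ∈ S, ((univ.filter (fun T : M => hit T i ∧ bad T i)).card : ℝ) ≤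
      Fintype.card M * (Fintype.card R * H / (q : ℝ) ^ d) / (q : ℝ) ^ (d + m) := by
    intro i hi
    have hu : δ i ≠ 0 := (Finset.mem_filter.1 hi).2
    have hsub : (univ.filter (fun T : M => hit T i ∧ bad T i)) ⊆
        (univ : Finset R).biUnion (fun r => ((B r).erase (z r i)).biUnion (fun w =>
          univ.filter (fun T : M => T (δ i) = v ∧ (T (w - z r i)).1 = 0))) := by
      intro T hT
      obtain ⟨h1, r, w, hw, hne, he⟩ := (Finset.mem_filter.1 hT).2
      refine Finset.mem_biUnion.2 ⟨r, mem_univ _, Finset.mem_biUnion.2 ⟨w,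
        Finset.mem_erase.2 ⟨hne, hw⟩, Finset.mem_filter.2 ⟨mem_univ _, h1, ?_⟩⟩⟩
      rw [map_sub, Prod.fst_sub, he, sub_self]
    have hone : ∀ r, ∀ w ∈ (B r).erase (z r i),
        ((univ.filter (fun T : M => T (δ i) = v ∧ (T (w - z r i)).1 = 0)).card : ℝ) ≤
          Fintype.card M / ((q : ℝ) ^ d * (q : ℝ) ^ (d + m)) := by
      intro r w hw
      have hu2 : w - z r i ≠ 0 := sub_ne_zero.2 (Finset.mem_erase.1 hw).1
      rcases parallel_or (W := (Fin d → ZMod q) × (Fin m → ZMod q)) hu (w - z r i) with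
        ⟨l, hl⟩ | hs
      · have he : (univ.filter (fun T : M => T (δ i) = v ∧ (T (w - z r i)).1 = 0)) = ∅ := by
          refine Finset.filter_eq_empty_iff.2 (fun T _ hT => ?_)
          obtain ⟨h1, h2⟩ := hT
          rw [hl, map_smul, h1, Prod.smul_fst] at h2
          rcases smul_eq_zero.1 h2 with h4 | h4
          · rw [h4, zero_smul] at hl
            exact hu2 hl
          · exact hv h4
        rw [he, Finset.card_empty, Nat.cast_zero]
        positivity
      · let f : M →+ ((Fin d → ZMod q) × (Fin m → ZMod q)) × (Fin d → ZMod q) :=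
          { toFun := fun T => (T (δ i), (T (w - z r i)).1)
            map_zero' := rfl
            map_add' := fun _ _ => rfl }
        have hf : Function.Surjective f := fun w' => by
          obtain ⟨T, h1, h2⟩ := hs w'.1 (w'.2, 0)
          exact ⟨T, Prod.ext h1 (congrArg Prod.fst h2)⟩
        have h := fiber_card f hf (v, 0)
        rw [Fintype.card_prod, cW, cd] at h
        rw [le_div_iff₀ (by positivity), ← h]
        apply le_of_eq
        push_cast
        rw [mul_comm ((q : ℝ) ^ d)]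
        congr 2
        refine congrArg Finset.card (Finset.filter_congr (fun T _ => ?_))
        change (T (δ i) = v ∧ (T (w - z r i)).1 = 0) ↔ (T (δ i), (T (w - z r i)).1) = (v, 0)
        exact ⟨fun h => Prod.ext h.1 h.2, fun h => ⟨congrArg Prod.fst h, congrArg Prod.snd h⟩⟩
    have hc : ((univ.filter (fun T : M => hit T i ∧ bad T i)).card : ℝ) ≤
        ∑ r : R, ∑ w ∈ (B r).erase (z r i),
          ((univ.filter (fun T : M => T (δ i) = v ∧ (T (w - z r i)).1 = 0)).card : ℝ) := by
      have := (Finset.card_le_card hsub).trans (Finset.card_biUnion_le.trans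
        (Finset.sum_le_sum (fun r _ => Finset.card_biUnion_le)))
      exact_mod_cast this
    refine hc.trans ?_
    have hr : ∀ r : R, ∑ w ∈ (B r).erase (z r i),
          ((univ.filter (fun T : M => T (δ i) = v ∧ (T (w - z r i)).1 = 0)).card : ℝ) ≤
          H * (Fintype.card M / ((q : ℝ) ^ d * (q : ℝ) ^ (d + m))) := by
      intro r
      refine (Finset.sum_le_sum (hone r)).trans ?_
      rw [sum_const, nsmul_eq_mul]
      refine mul_le_mul_of_nonneg_right ?_ (by positivity)
      exact_mod_cast (Finset.card_le_card (Finset.erase_subset _ _)).trans (hB r)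
    refine (Finset.sum_le_sum (fun r _ => hr r)).trans (le_of_eq ?_)
    rw [sum_const, card_univ, nsmul_eq_mul]
    field_simp
  have key := average_at hit bad S ((q : ℝ) ^ (d + m)) (Fintype.card R * H / (q : ℝ) ^ d)
    (by positivity) hS1 (fun i hi => by convert k1 i hi)
    (fun i hi j hj hij => by convert k2 i hi j hj hij) (fun i hi => by convert k3 i hi)
  have hSN : (q : ℝ) ^ (d + m) / (S.card : ℝ) ≤ 2 * ((q : ℝ) ^ (d + m) / Fintype.card ι) := by
    have h1 : (Fintype.card ι : ℝ) ≤ 2 * S.card := by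
      have : Fintype.card ι ≤ 2 * S.card := by omega
      exact_mod_cast this
    have h2 : (0 : ℝ) < S.card := by exact_mod_cast hS1
    rw [← mul_div_assoc, div_le_div_iff₀ h2 (by linarith)]
    have h3 : (0 : ℝ) ≤ (q : ℝ) ^ (d + m) := by positivity
    nlinarith
  have key2 : ((univ.filter (fun T : M => ¬ ∃ i, hit T i ∧ ¬ bad T i)).card : ℝ) ≤
      Fintype.card M * (4 * (q : ℝ) ^ (d + m) / S.card + 2 * (Fintype.card R * H / (q : ℝ) ^ d)) := by
    convert key
  refine key2.trans ?_
  rw [mul_comm]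
  refine mul_le_mul_of_nonneg_right ?_ hM0
  have h5 : 4 * (q : ℝ) ^ (d + m) / (S.card : ℝ) = 4 * ((q : ℝ) ^ (d + m) / (S.card : ℝ)) := by ring
  rw [h5]
  linarith

end Pool.Agent.Zk81.AK
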