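import Mathlib

set_option autoImplicit false

open Finset

namespace Pool.Agent.Zk81.AK

/-- the squares modulo `Q` -/
def sqs (Q : ℕ) : Finset ℕ := (range Q).image fun s => s ^ 2 % Q

theorem mem_sqs {Q : ℕ} (hQ : 0 < Q) (s : ℕ) : s ^ 2 % Q ∈ sqs Q :=
  mem_image.2 ⟨s % Q, mem_range.2 (Nat.mod_lt _ hQ), (Nat.pow_mod s 2 Q).symm⟩

theorem eq_of_mod {Q a b : ℕ} (h : a / Q = b / Q) (h' : a % Q = b % Q) : a = b := by
  rw [← Nat.div_add_mod a Q, ← Nat.div_add_mod b Q, h, h']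

theorem sqs_mul {m n : ℕ} (hm : 0 < m) (hn : 0 < n) (h : Nat.Coprime m n) :
    (sqs (m * n)).card ≤ (sqs m).card * (sqs n).card := by
  rw [← card_product]
  refine card_le_card_of_injOn (fun r => (r % m, r % n)) ?_ ?_
  · intro r hr
    obtain ⟨s, -, rfl⟩ := mem_image.1 (mem_coe.1 hr)
    refine mem_coe.2 (mem_product.2 ⟨?_, ?_⟩)
    · show s ^ 2 % (m * n) % m ∈ sqs m
      rw [Nat.mod_mod_of_dvd _ (Dvd.intro _ rfl)]
      exact mem_sqs hm s
    · show s ^ 2 % (m * n) % n ∈ sqs n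
      rw [Nat.mod_mod_of_dvd _ (Dvd.intro_left _ rfl)]
      exact mem_sqs hn s
  · intro r hr r' hr' he
    have h1 : r < m * n := by
      obtain ⟨s, -, rfl⟩ := mem_image.1 (mem_coe.1 hr)
      exact Nat.mod_lt _ (Nat.mul_pos hm hn)
    have h2 : r' < m * n := by
      obtain ⟨s, -, rfl⟩ := mem_image.1 (mem_coe.1 hr')
      exact Nat.mod_lt _ (Nat.mul_pos hm hn)
    have h3 : r ≡ r' [MOD m] := congrArg Prod.fst he
    have h4 : r ≡ r' [MOD n] := congrArg Prod.snd he
    exact Nat.ModEq.eq_of_lt_of_lt ((Nat.modEq_and_modEq_iff_modEq_mul h).1 ⟨h3, h4⟩) h1 h2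

theorem sqs_odd {p : ℕ} (hp : p % 2 = 1) : (sqs p).card ≤ (p + 1) / 2 := by
  have hsub : sqs p ⊆ (range ((p + 1) / 2)).image fun s => s ^ 2 % p := by
    intro r hr
    obtain ⟨s, hs, rfl⟩ := mem_image.1 hr
    have hs' := mem_range.1 hs
    by_cases h : s < (p + 1) / 2
    · exact mem_image.2 ⟨s, mem_range.2 h, rfl⟩
    · refine mem_image.2 ⟨p - s, mem_range.2 (by omega), ?_⟩
      show (p - s) ^ 2 ≡ s ^ 2 [MOD p]
      rw [Nat.modEq_iff_dvd]
      push_cast [Nat.cast_sub hs'.le]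
      exact ⟨2 * s - p, by ring⟩
  refine (card_le_card hsub).trans (card_image_le.trans ?_)
  rw [card_range]

theorem sqs_prod (T : Finset ℕ) (hT : ∀ p ∈ T, p.Prime ∧ p ≠ 2) :
    (sqs (∏ p ∈ T, p)).card ≤ ∏ p ∈ T, ((p + 1) / 2) := by
  classical
  induction T using Finset.induction_on with
  | empty => simp [sqs]
  | insert a s ha ih =>
    rw [prod_insert ha, prod_insert ha]
    have h1 : ∀ p ∈ s, p.Prime ∧ p ≠ 2 := fun p hp => hT p (mem_insert_of_mem hp)
    have h2 := hT a (mem_insert_self _ _)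
    have hc : Nat.Coprime a (∏ p ∈ s, p) := by
      refine Nat.Coprime.prod_right (fun p hp => ?_)
      exact (Nat.coprime_primes h2.1 (h1 p hp).1).2 (fun h => ha (h ▸ hp))
    refine (sqs_mul h2.1.pos (prod_pos (fun p hp => (h1 p hp).1.pos)) hc).trans ?_
    exact Nat.mul_le_mul (sqs_odd ((h2.1.eq_two_or_odd).resolve_left h2.2)) (ih h1)

theorem prod_odd (T : Finset ℕ) (hT : ∀ p ∈ T, p.Prime ∧ p ≠ 2) : Odd (∏ p ∈ T, p) := by
  classical
  induction T using Finset.induction_on with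
  | empty => simp
  | insert a s ha ih =>
    rw [prod_insert ha]
    have h2 := hT a (mem_insert_self _ _)
    exact (Nat.odd_iff.2 ((h2.1.eq_two_or_odd).resolve_left h2.2)).mul
      (ih (fun p hp => hT p (mem_insert_of_mem hp)))

theorem sq_classes (T : Finset ℕ) (hT : ∀ p ∈ T, p.Prime ∧ p ≠ 2) (k : ℕ) :
    ∃ A : Finset (ℤ × ℤ), (A.image Prod.snd).card = ∏ p ∈ T, p ∧
      ∀ j < k, (A.image fun p => p.1 + (j : ℤ) * p.2).card ≤ k * ∏ p ∈ T, ((p + 1) / 2) := by
  classical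
  obtain ⟨Q, hQ⟩ : ∃ Q, Q = ∏ p ∈ T, p := ⟨_, rfl⟩
  have hodd : Odd Q := hQ ▸ prod_odd T hT
  have hQ0 : 0 < Q := hodd.pos
  obtain ⟨c, hc⟩ := hodd
  have hs : (sqs Q).card ≤ ∏ p ∈ T, ((p + 1) / 2) := hQ ▸ sqs_prod T hT
  let u := c + 1
  let y : ℕ → ℕ := fun v => (v * u) ^ 2 % Q
  refine ⟨(range Q).image fun v => ((y v : ℤ), (v : ℤ)), ?_, fun j hj => ?_⟩
  · rw [image_image, ← hQ, card_image_of_injective, card_range]
    intro a b hab
    have hab' : ((a : ℕ) : ℤ) = ((b : ℕ) : ℤ) := hab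
    exact_mod_cast hab'
  · rw [image_image]
    have h1 : (range Q).image ((fun p : ℤ × ℤ => p.1 + (j : ℤ) * p.2) ∘
        fun v => ((y v : ℤ), (v : ℤ))) = ((range Q).image fun v => y v + j * v).image
          (fun r : ℕ => (r : ℤ)) := by
      rw [image_image]
      refine image_congr (fun v _ => ?_)
      simp
    rw [h1]
    refine card_image_le.trans ?_
    refine le_trans ?_ (Nat.mul_le_mul_left k hs)
    have h2 : k * (sqs Q).card = (range k ×ˢ sqs Q).card := by rw [card_product, card_range]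
    rw [h2]
    refine card_le_card_of_injOn (fun r => (r / Q, (r + j ^ 2) % Q)) ?_ ?_
    · intro r hr
      obtain ⟨v, hv, rfl⟩ := mem_image.1 (mem_coe.1 hr)
      have hv' := mem_range.1 hv
      refine mem_coe.2 (mem_product.2 ⟨mem_range.2 ?_, ?_⟩)
      · have h3 : y v < Q := Nat.mod_lt _ hQ0
        refine Nat.div_lt_of_lt_mul ?_
        have h4 : j * v ≤ (k - 1) * Q := Nat.mul_le_mul (by omega) hv'.le
        have h5 : Q * k = (k - 1) * Q + Q := by
          obtain ⟨k', rfl⟩ : ∃ k', k = k' + 1 := ⟨k - 1, by omega⟩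
          simp only [Nat.add_sub_cancel]
          ring
        omega
      · have h6 : (y v + j * v + j ^ 2) % Q = (v * u + j) ^ 2 % Q := by
          have h7 : y v + j * v + j ^ 2 ≡ (v * u) ^ 2 + j * v + j ^ 2 [MOD Q] :=
            ((Nat.mod_modEq _ _).add_right _).add_right _
          have h8 : (v * u + j) ^ 2 = ((v * u) ^ 2 + j * v + j ^ 2) + Q * (v * j) := by
            simp only [u]
            rw [hc]; ring
          have h9 : (v * u + j) ^ 2 ≡ (v * u) ^ 2 + j * v + j ^ 2 [MOD Q] := by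
            rw [h8]
            exact Nat.modEq_of_dvd (by push_cast; exact ⟨-(v * j), by ring⟩)
          exact h7.trans h9.symm
        show (y v + j * v + j ^ 2) % Q ∈ sqs Q
        rw [h6]
        exact mem_sqs hQ0 _
    · intro r _ r' _ he
      have h3 : r / Q = r' / Q := congrArg Prod.fst he
      have h4 : r + j ^ 2 ≡ r' + j ^ 2 [MOD Q] := congrArg Prod.snd he
      exact eq_of_mod h3 (Nat.ModEq.add_right_cancel' _ h4)

end Pool.Agent.Zk81.AK
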